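import Mathlib
import Pool.Agent.H15.MS4

set_option autoImplicit false

open Polynomial

namespace Pool.Agent.Results.MP_b13872_an.Classify

/-- All complex zeros are real; the zero polynomial counts as real-rooted. -/
def RealRooted (p : ℝ[X]) : Prop := p = 0 ∨ ∀ z : ℂ, aeval z p = 0 → z.im = 0

/-- Multiplier sequence: `∑ a_k x^k ↦ ∑ γ_k a_k x^k` preserves real-rootedness. -/
def IsMultiplierSeq (γ : ℕ → ℝ) : Prop :=
  ∀ p : ℝ[X], RealRooted p → RealRooted (p.sum fun k a => monomial k (γ k * a))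

/-- Admissible functions. -/
def Admissible (Ψ : ℝ → ℝ → ℝ) : Prop :=
  ∀ α β : ℕ → ℝ, IsMultiplierSeq α → IsMultiplierSeq β → (∀ k, 0 ≤ α k) → (∀ k, 0 ≤ β k) →
    IsMultiplierSeq fun k => Ψ (α k) (β k)

open Pool.Agent.H15.MS in
theorem result (Ψ : ℝ → ℝ → ℝ) : Admissible Ψ ↔
    ∃ (c : ℝ) (a b : ℕ), ∀ x y, 0 ≤ x → 0 ≤ y → Ψ x y = c * x ^ a * y ^ b := by
  have e : ∀ γ, IsMultiplierSeq γ ↔ IsMS γ := fun γ => by
    simp only [IsMultiplierSeq, IsMS, RealRooted, splits_iff, T]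
  rw [← main]
  simp only [Admissible, Adm, e]

end Pool.Agent.Results.MP_b13872_an.Classify
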